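import Pool.Agent.T2H38.CP.Main
import Pool.Agent.T2H38.CP.Crit

/-!
# Full faithfulness of the Hodge realization on varieties built from pieces with complex
multiplication

Let `k` be an algebraically closed field with an embedding into `ℂ`, and let `W` be the cohomology of
the complex manifolds of smooth projective varieties over `k` with complex coefficients, with its
rational Hodge structures (`HodgeData`) and its comparison with the cohomology for the other
embeddings (`Embeddings`), which defines the absolute Hodge classes and the motives for absolute
Hodge cycles.

Let `P` be a family, which may be infinite, of pieces with complex multiplication of the cohomology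
of varieties `X i`: sub-Hodge-structures `V i` of any degree and any level on which a CM field `F i`
of degree `dim V i` operates. The family is nondegenerate (`Nondegenerate`) if the levels `p - q` of
the eigenvectors satisfy no other relations than those between an embedding of `F i` and its complex
conjugate. We prove:

* Let the Hodge classes in `V i ⊗ V i` be absolute Hodge classes. Then all Hodge classes on all
  varieties `Z` built from the pieces are absolute, and the Hodge realization is fully faithful on
  the motives of these varieties. The same holds for the products `Z × U` with all varieties `U` which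
  are independent of the fields `F i` (`IsIndependent`) and all of whose Hodge classes are
  absolute, for example for all abelian varieties `U` without simple factors of type IV.
* Let `𝒰` be a class of independent varieties which is closed under products and the `X i` built
  from the pieces. The Hodge realization is fully faithful on the motives of all products of
  varieties in `𝒰` and powers of the `X i` if and only if it is on the motives of the varieties in
  `𝒰` and the Hodge classes in `V i ⊗ V i` are absolute.
* The family is nondegenerate if the signs of the fields `F i` are separated, the fields are pairwise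
  compatible, and the types of the pieces with conjugate fields are linearly independent. The signs
  of `F` are separated if `F` has degree two or if it has degree `2 q`, `q` a prime number, and the
  Galois closure of `F` is not the compositum of a totally real field and an imaginary quadratic
  field.
* The varieties `Z'` built from arbitrary pieces with complex multiplication by fields `F' j` and
  their products with varieties without characters are independent of the fields `F i` if some
  automorphism is the complex conjugation on the images of the `F i` and the identity on the images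
  of the `F' j`.
-/

open CategoryTheory AlgebraicGeometry NumberField Module

universe u

namespace Pool.Agent.Results.MP_0da4e0_ag.CMPieces

open Pool.Agent.H914 Pool.Agent.H914.VarClass Pool.Agent.H914.VarClass.Obj Pool.Agent.Y132.AH
  Pool.Agent.T2H38.CP

variable {k : Type u} [Field k] {𝒱 : VarClass k} {ops : CycleOps 𝒱}

theorem result (W : WeilCohomology.{u, 0} ops) [IsAlgClosed W.K] (Ψ : HodgeData W)
    (E : Embeddings W) {ι : Type} (F : ι → Type) [∀ i, Field (F i)] [∀ i, NumberField (F i)]
    [∀ i, IsCMField (F i)] :
    (∀ P : CMPieces Ψ F, P.Nondegenerate → P.SquaresAbsolute E →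
      (∀ Z, P.IsBuilt E Z → AllAbsolute Ψ E Z ∧
        ∀ U, IsIndependent Ψ F U → AllAbsolute Ψ E U → AllAbsolute Ψ E (Z.prod U)) ∧
      FullyFaithfulOn Ψ E {Z | P.IsBuilt E Z}) ∧
    (∀ P : CMPieces Ψ F, P.Nondegenerate → ∀ 𝒰 : Set 𝒱.Obj, (∀ U ∈ 𝒰, ∀ U' ∈ 𝒰, U.prod U' ∈ 𝒰) →
      (∀ U ∈ 𝒰, IsIndependent Ψ F U) →
      HasZeroCycle 𝒰 → (∀ i, P.IsBuilt E (P.X i)) →
      (FullyFaithfulOn Ψ E (productsWith 𝒰 P.X) ↔
        FullyFaithfulOn Ψ E 𝒰 ∧ P.SquaresAbsolute E)) ∧
    (Nonempty (W.K ≃+* ℂ) → (∀ P : CMPieces Ψ F, (∀ i, SeparatedSigns (F i) W.K) →
        (∀ i j, Compatible (F i) (F j) W.K) → P.IndependentTypes → P.Nondegenerate) ∧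
      (∀ i, finrank ℚ (F i) = 2 → SeparatedSigns (F i) W.K) ∧
      (∀ i, ∀ q : ℕ, q.Prime → finrank ℚ (F i) = 2 * q → HasSign (F i) W.K →
        SeparatedSigns (F i) W.K) ∧
      (∀ i j, ∀ g g' : ℕ, Odd g → Odd g' → finrank ℚ (F i) = 2 * g →
        finrank ℚ (F j) = 2 * g' → Compatible (F i) (F j) W.K)) ∧
    (∀ {κ : Type} (F' : κ → Type) [∀ j, Field (F' j)] [∀ j, NumberField (F' j)]
      [∀ j, IsCMField (F' j)] (P' : CMPieces Ψ F'), IsDisjoint F F' W.K → ∀ Z',
      P'.IsBuilt E Z' → IsIndependent Ψ F Z' ∧
        ∀ U, NoCharacters Ψ U → IsIndependent Ψ F (Z'.prod U)) :=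
  ⟨fun _ hN hP => ⟨fun _ hZ => ⟨abs_built hP hN hZ, fun _ hU h => abs_prod hP hN hZ hU h⟩,
      full_built hP hN⟩,
    fun _ hN _ h𝒰 hU hpt hX => full_X hN h𝒰 hU hpt hX,
    fun ⟨e⟩ => ⟨fun _ h1 h2 h3 => nondegenerate_of_separated e h1 h2 h3,
      fun i h => (criteria (F := F i) (F' := F i) e).2.1 h,
      fun i q hq h hex => (criteria (F := F i) (F' := F i) e).1 q hq h hex,
      fun i j g g' hg hg' h h' => (criteria (F := F i) (F' := F j) e).2.2 g g' hg hg' h h'⟩,
    fun _ _ _ _ _ hd _ hZ => ⟨independent_built hd hZ, fun _ hU => independent_prod hd hZ hU⟩⟩

end Pool.Agent.Results.MP_0da4e0_ag.CMPieces
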