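import Pool.Agent.T2H38.CT.Dom
import Pool.Agent.T2H38.CT.Fin

/-!
# Full faithfulness of the Hodge realization on products with varieties of CM type

Let `k` be an algebraically closed field with an embedding into `ℂ`, and let `W` be the cohomology of
the complex manifolds of smooth projective varieties over `k` with complex coefficients, with its
rational Hodge structures (`HodgeData`) and its comparison with the cohomology for the other
embeddings (`Embeddings`), which defines the absolute Hodge classes and the motives for absolute
Hodge cycles.

The characters of a variety are the one-dimensional representations of the Mumford-Tate group (up to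
Tate twists) in its cohomology: the functions `s` on the automorphisms `τ` of `ℂ` such that some
nonzero class has conjugates by `1 ⊗ τ` of types `(p, q)` with `p - q = s τ` for all `τ`. Let `X i` be
a family, which may be infinite, of varieties of CM type: the cohomology of each of them is a sum of
one-dimensional representations. Let `𝒰` be a class of varieties which is closed under products. We
prove:

* The Hodge realization is fully faithful on the motives of all products of varieties in `𝒰` and
  powers of the `X i` if and only if it is on the motives of the primitive ones: the products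
  `X i₁ × ⋯ × X i_n × U` such that there are characters `s_a` of `X i_a` and `r` of `U` with
  `s₁ + ⋯ + s_n + r = 0` and such that no nonempty proper part of `s₁, …, s_n` has the sum zero.
* If the family is finite then for each `U` there are only finitely many primitive products.
* If `𝒰` contains varieties `D i` of CM type such that the characters of `X i` occur in `D i`, then the
  realization is fully faithful on the motives of all products of varieties in `𝒰` and powers of the
  `X i` if and only if it is on the motives of the varieties in `𝒰` and all Hodge classes on the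
  products `X i × D i` are absolute.
* If `s` and `-s` are not characters of `X i` and of `U` for any `s ≠ 0`, then all Hodge classes on
  `X i × U` are absolute if all Hodge classes on `X i` and on `U` are.
-/

open CategoryTheory AlgebraicGeometry

universe u

namespace Pool.Agent.Results.MP_0da4e0_ag.CMType

open Pool.Agent.H914 Pool.Agent.H914.VarClass Pool.Agent.H914.VarClass.Obj Pool.Agent.Y132.AH
  Pool.Agent.T2H38.CP Pool.Agent.T2H38.CT

variable {k : Type u} [Field k] {𝒱 : VarClass k} {ops : CycleOps 𝒱}

theorem result (W : WeilCohomology.{u, 0} ops) [IsAlgClosed W.K] (Ψ : HodgeData W)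
    (E : Embeddings W) {ι : Type} (X : ι → 𝒱.Obj) (hX : ∀ i, IsCMType Ψ (X i)) :
    (∀ 𝒰 : Set 𝒱.Obj, (∀ U ∈ 𝒰, ∀ U' ∈ 𝒰, U.prod U' ∈ 𝒰) →
      (FullyFaithfulOn Ψ E (productsWith 𝒰 X) ↔
        FullyFaithfulOn Ψ E (primitiveProducts Ψ 𝒰 X)) ∧
      ∀ D : ι → 𝒱.Obj, (∀ i, D i ∈ 𝒰) → (∀ i, IsCMType Ψ (D i)) →
        (∀ i s, IsCharacter Ψ (X i) s → IsCharacter Ψ (D i) s) →
        (FullyFaithfulOn Ψ E (productsWith 𝒰 X) ↔
          FullyFaithfulOn Ψ E 𝒰 ∧ ∀ i, AllAbsolute Ψ E ((X i).prod (D i)))) ∧
    (Finite ι → ∀ U : 𝒱.Obj, {L : List ι | IsPrimitiveFor Ψ X U L}.Finite) ∧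
    (∀ (i : ι) (U : 𝒱.Obj), NoCommon (IsCharacter Ψ (X i)) (IsCharacter Ψ U) →
      AllAbsolute Ψ E (X i) → AllAbsolute Ψ E U → AllAbsolute Ψ E ((X i).prod U)) :=
  ⟨fun _ h𝒰 => ⟨full_iff hX h𝒰, fun _ hD h1 h2 => full_dominated hX h1 h2 h𝒰 hD⟩,
    fun _ U => finite_primitive X U,
    fun i _ hc h1 h2 => abs_prod_noCommon (hX i) hc h1 h2⟩

end Pool.Agent.Results.MP_0da4e0_ag.CMType
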