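import Pool.Agent.T2H43.HF.FullP

/-!
# Full faithfulness of the Hodge realization on motives of varieties of level two

Let `W` be the cohomology of the complex manifolds of smooth projective varieties over an
algebraically closed field with an embedding into `ℂ`, with complex coefficients, its rational Hodge
structures (`HodgeData`) and its comparison with the cohomology for the other embeddings
(`Embeddings`), which defines the absolute Hodge classes and the motives for absolute Hodge cycles.

Let `𝒵` be a class of varieties which is closed under products (for example the abelian varieties),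
and let `X i` be any family of even-dimensional varieties, which may be infinite, such that
homological and numerical equivalence coincide on `X i`, the transcendental cohomology `T i` is
concentrated in the middle degree, and `T i` is an absolutely irreducible Hodge structure of level
two with the Hodge numbers `p`, `q`, `p` with `p = 1`, `q > 0`, `q ≠ 2` or `p ≥ 2`,
`gcd(p, q) = 1`, `2 p ^ 2 (p ^ 2 + 1) < (q - 2 p) (q + p)`; for different `i` they are not
isomorphic up to scalars. The cohomology of the varieties in `𝒵` is generated by small
sub-Hodge-structures (`SmallBase`), or it is generated in degree one and `p ≥ 2`.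

* Let all Hodge classes on `Z` in `𝒵` be absolute Hodge classes. Then this holds for all products of
  `Z` with powers of any of the `X i` with exponents smaller than `dim T i`, and also with arbitrary
  exponents for those `i` for which the Hodge classes in the one-dimensional space `Λ^(dim T i) T i`
  are absolute.
* For every set `I` of indices: the Hodge realization is fully faithful on the motives of all
  products of varieties in `𝒵` and powers of the `X i`, with exponents smaller than `dim T i / 2` for
  the `i` outside `I` and arbitrary exponents for the `i` in `I`, if and only if it is on the motives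
  of the varieties in `𝒵` and the Hodge classes in the spaces `Λ^(dim T i) T i` for the `i` in `I`
  are absolute.

So for `p ≥ 2` the theorem of Deligne for abelian varieties implies that the Hodge realization is
fully faithful on the motives of all products of abelian varieties and varieties `X i` with exponents
smaller than `dim T i / 2`.
-/

open CategoryTheory AlgebraicGeometry

universe u

namespace Pool.Agent.Results.MP_0da4e0_ag.LevelTwoMotives

open Pool.Agent.H914 Pool.Agent.H914.VarClass Pool.Agent.H914.VarClass.Obj Pool.Agent.Y132.AH
  Pool.Agent.T2H43.HF.P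

variable {k : Type u} [Field k] {𝒱 : VarClass k} {ops : CycleOps 𝒱}

theorem result (W : WeilCohomology.{u, 0} ops) [IsAlgClosed W.K] (e : W.K ≃+* ℂ)
    (Ψ : HodgeData W) (E : Embeddings W) (𝒵 : Set 𝒱.Obj) (h𝒵 : ∀ Z ∈ 𝒵, ∀ Z' ∈ 𝒵, Z.prod Z' ∈ 𝒵)
    (hne : ∃ Z ∈ 𝒵, Nontrivial (W.H Z)) {ι : Type} [DecidableEq ι] (p q : ι → ℕ) (X : ι → 𝒱.Obj)
    (hX : LevelTwoFamily Ψ p q X)
    (hsmall : ∀ Z ∈ 𝒵, ∀ i, SmallBase Ψ (X i) Z ∨ (2 ≤ p i ∧ GeneratedIn W Z {1})) :
    (∀ Z ∈ 𝒵, AllAbsolute Ψ E Z → ∀ L : List ι,
      (∀ i, dimT W (X i) ≤ L.count i → DetAbsolute Ψ E (X i)) →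
      AllAbsolute Ψ E (prodList X Z L)) ∧
    ∀ I : Set ι, FullyFaithfulOn Ψ E (productsOff W 𝒵 X I) ↔ FullyFaithfulOn Ψ E 𝒵 ∧
      ∀ i ∈ I, DetAbsolute Ψ E (X i) :=
  Pool.Agent.T2H43.HF.lv_P Ψ E e h𝒵 hne hX hsmall

end Pool.Agent.Results.MP_0da4e0_ag.LevelTwoMotives
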